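import Pool.Agent.H34.FS.Targets

/-!
# The lower bound for the number of local zeros: board `hfs_modules`, row `LOL`
-/

set_option autoImplicit false

open Finset Pool.Agent.H32.RQ Pool.Agent.H34.FQ Pool.Agent.H34.FS

namespace Pool.Agent.H4.HFS

theorem mem_vb {s B : ℕ} {x : Fin s → ℤ} : x ∈ vb s B ↔ ∀ i, |x i| ≤ (B : ℤ) := by
  unfold vb
  rw [Fintype.mem_piFinset]
  simp only [Finset.mem_Icc, abs_le]

theorem card_vb (s B : ℕ) : (vb s B).card = (2 * B + 1) ^ s := by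
  unfold vb
  rw [Fintype.card_piFinset, Finset.prod_const, Finset.card_univ, Fintype.card_fin, Int.card_Icc]
  congr 1
  omega

theorem qf_dvd {s : ℕ} (f : Mon s → ℤ) (R : ℤ) (x y : Fin s → ℤ) (h : ∀ i, R ∣ x i - y i) :
    R ∣ qf f x - qf f y := by
  unfold qf
  rw [← Finset.sum_sub_distrib]
  refine Finset.dvd_sum fun p _ => ?_
  have e : f p * (x p.1.1 * x p.1.2) - f p * (y p.1.1 * y p.1.2) =
      f p * x p.1.1 * (x p.1.2 - y p.1.2) + f p * y p.1.2 * (x p.1.1 - y p.1.1) := by ring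
  rw [e]
  exact dvd_add (Dvd.dvd.mul_left (h _) _) (Dvd.dvd.mul_left (h _) _)

theorem cv_dvd {n : ℕ} (R a b : ℤ) (v w : Fin n → ℤ) (h : R ∣ a - b) (h2 : ∀ i, R ∣ v i - w i) :
    ∀ i, R ∣ cv a v i - cv b w i := by
  intro i
  refine Fin.cases ?_ (fun i => ?_) i
  · exact h
  · exact h2 i

/-- a vector without common prime divisor generates the unit ideal -/
theorem prm_of {s : ℕ} (e : Fin s → ℤ) (h : ∀ p : ℕ, p.Prime → ¬ ∀ i, (p : ℤ) ∣ e i) : Prm e := by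
  by_contra hc
  have h1 : Ideal.span (Set.range e) ≠ ⊤ := by
    intro ht
    apply hc
    have : (1 : ℤ) ∈ Ideal.span (Set.range e) := by rw [ht]; trivial
    rw [Ideal.mem_span_range_iff_exists_fun] at this
    exact this
  obtain ⟨M, hM, hle⟩ := Ideal.exists_le_maximal _ h1
  obtain ⟨g, hg⟩ := (IsPrincipalIdealRing.principal M).principal
  have hg' : M = Ideal.span {g} := hg
  have hg0 : g.natAbs ≠ 1 := by
    intro hg1
    apply hM.ne_top
    rw [hg', Ideal.span_singleton_eq_top]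
    exact Int.isUnit_iff_natAbs_eq.mpr hg1
  obtain ⟨p, hp, hpg⟩ := Nat.exists_prime_and_dvd hg0
  apply h p hp
  intro i
  have h2 : e i ∈ M := hle (Ideal.subset_span ⟨i, rfl⟩)
  rw [hg', Ideal.mem_span_singleton] at h2
  exact (Int.natCast_dvd.mpr hpg).trans h2

theorem qf_bd {s : ℕ} (f : Mon s → ℤ) (x : Fin s → ℤ) (B : ℕ) (hx : ∀ i, |x i| ≤ (B : ℤ)) :
    |((qf f x : ℤ) : ℝ)| ≤ (∑ p, |(f p : ℝ)|) * (B : ℝ) ^ 2 := by
  have h : ∀ i, |(x i : ℝ)| ≤ B := fun i => by exact_mod_cast hx i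
  unfold qf
  push_cast
  refine (Finset.abs_sum_le_sum_abs _ _).trans ?_
  rw [Finset.sum_mul]
  refine Finset.sum_le_sum fun p _ => ?_
  rw [abs_mul, abs_mul, sq]
  refine mul_le_mul_of_nonneg_left ?_ (abs_nonneg _)
  exact mul_le_mul (h _) (h _) (abs_nonneg _) (by positivity)

theorem sum_bd {r : ℕ} (l u : Fin r → ℤ) (A R : ℕ) (hl : ∀ j, |l j| ≤ (A : ℤ))
    (hu : ∀ j, |u j| ≤ (R : ℤ)) : |((∑ j, l j * u j : ℤ) : ℝ)| ≤ r * A * R := by
  have h1 : |∑ j, l j * u j| ≤ (r : ℤ) * A * R := by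
    refine (Finset.abs_sum_le_sum_abs _ _).trans ?_
    have h2 : ∑ j : Fin r, |l j * u j| ≤ ∑ _j : Fin r, (A : ℤ) * R := by
      refine Finset.sum_le_sum fun j _ => ?_
      rw [abs_mul]
      exact mul_le_mul (hl j) (hu j) (abs_nonneg _) (by positivity)
    refine h2.trans (le_of_eq ?_)
    simp [mul_assoc]
  exact_mod_cast h1

open Classical in
theorem key (hGGE : T_GGE) {r : ℕ} (F : Fin 2 → Mon r → ℤ) {c : ℕ} (hc : 1 ≤ c) {δ : ℝ}
    {K W N R : ℕ} (hW : 1 ≤ W) (hR : R = c * W) {B A : ℕ}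
    {L : Fin 2 → Fin (r + 1) → ℤ} (hL : L ∈ bL r A) (hN : R * (N + 1) ≤ B)
    (hB2 : 4 * (c : ℝ) ≤ δ * B) (hB3 : 4 * (r : ℝ) * R ≤ δ * B)
    (hA : ∀ i, 4 * (∑ p, |(F i p : ℝ)|) * B ≤ δ * A)
    {u : Fin r → ℤ} (hu : u ∈ UL F c R L) {t : Fin r → ℤ} (ht : t ∈ vb r N)
    (hs : ∀ i, |((∑ j : Fin r, L i j.succ * t j : ℤ) : ℝ)| ≤ δ * A * B / (4 * R))
    (hb : ∃ i, (B : ℤ) ≤ K * |u i + (R : ℤ) * t i|) :
    (fun i => u i + (R : ℤ) * t i) ∈ (PT F c K B).filter fun x => ∀ i, (W : ℤ) ∣ vi F c L i x ∧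
        |((vi F c L i x : ℤ) : ℝ)| ≤ δ * A * B := by
  simp only [UL, Finset.mem_filter, Fintype.mem_piFinset, Finset.mem_Ico] at hu
  obtain ⟨hu1, hu2, hu3⟩ := hu
  rw [mem_vb] at ht
  have hLA : ∀ i j, |L i j| ≤ (A : ℤ) := by
    intro i j
    unfold bL at hL
    rw [Fintype.mem_piFinset] at hL
    have h1 := hL i
    rw [Fintype.mem_piFinset] at h1
    have h2 := h1 j
    rw [Finset.mem_Icc] at h2
    rw [abs_le]
    exact h2
  obtain ⟨x, hx⟩ : ∃ x : Fin r → ℤ, x = fun i => u i + (R : ℤ) * t i := ⟨_, rfl⟩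
  have hxi : ∀ i, x i = u i + (R : ℤ) * t i := fun i => by rw [hx]
  rw [← hx]
  have hR0 : 0 < R := by
    rw [hR]
    exact Nat.mul_pos hc hW
  have hRz : (0 : ℤ) ≤ (R : ℤ) := by positivity
  have hc0 : (c : ℤ) ≠ 0 := by
    have : c ≠ 0 := by omega
    exact_mod_cast this
  have hRc : (R : ℤ) = c * W := by
    rw [hR]
    push_cast
    rfl
  -- size
  have huR : ∀ i, |u i| ≤ (R : ℤ) := by
    intro i
    rw [abs_of_nonneg (hu1 i).1]
    exact (hu1 i).2.le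
  have hxB : ∀ i, |x i| ≤ (B : ℤ) := by
    intro i
    have h3 : |x i| ≤ |u i| + |(R : ℤ) * t i| := by
      rw [hxi]
      exact abs_add_le _ _
    rw [abs_mul, abs_of_nonneg hRz] at h3
    have h4 : (R : ℤ) * |t i| ≤ R * N := mul_le_mul_of_nonneg_left (ht i) hRz
    have h5 : (R : ℤ) * (N + 1) ≤ B := by exact_mod_cast hN
    have h6 := huR i
    linarith [mul_add (R : ℤ) N 1]
  -- congruences
  have hcong : ∀ i, (R : ℤ) ∣ qf (gg F L i) (cv (c : ℤ) x) := by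
    intro i
    have h1 := qf_dvd (gg F L i) (R : ℤ) (cv (c : ℤ) x) (cv (c : ℤ) u)
      (cv_dvd _ _ _ _ _ (by simp) (fun j => by rw [hxi]; simp))
    have h2 := dvd_add h1 (hu2 i)
    simpa using h2
  have hGG : ∀ i, qf (gg F L i) (cv (c : ℤ) x) =
      qf (F i) x + c * ∑ j, L i j * cv (c : ℤ) x j := fun i => (hGGE ℤ r (F i) (L i) (c : ℤ) x).1
  have hcF : ∀ i, (c : ℤ) ∣ qf (F i) x := by
    intro i
    have h1 : (c : ℤ) ∣ qf (gg F L i) (cv (c : ℤ) x) := by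
      refine Dvd.dvd.trans ?_ (hcong i)
      rw [hRc]
      exact dvd_mul_right _ _
    rw [hGG i] at h1
    exact (dvd_add_left (dvd_mul_right _ _)).1 h1
  have htt : ∀ i, (c : ℤ) * tt F c i x = qf (F i) x := by
    intro i
    unfold tt
    exact Int.mul_ediv_cancel' (hcF i)
  have hvi : ∀ i, (c : ℤ) * vi F c L i x = qf (gg F L i) (cv (c : ℤ) x) := by
    intro i
    rw [hGG i]
    unfold vi
    rw [mul_add, htt i]
  rw [Finset.mem_filter]
  refine ⟨?_, fun i => ⟨?_, ?_⟩⟩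
  · unfold PT
    rw [Finset.mem_filter, mem_vb]
    refine ⟨hxB, ?_, ?_, hcF⟩
    · refine prm_of _ fun p hp hpe => ?_
      have hpc : (p : ℤ) ∣ c := hpe 0
      have hpx : ∀ i, (p : ℤ) ∣ x i := fun i => hpe i.succ
      have hpc' : p ∣ c := by exact_mod_cast hpc
      have hpR : p ∣ R := by
        rw [hR]
        exact Dvd.dvd.mul_right hpc' _
      obtain ⟨i, hi⟩ := hu3 p hp hpR hpc'
      apply hi
      have h1 := hpx i
      rw [hxi] at h1
      have h2 : (p : ℤ) ∣ (R : ℤ) * t i := Dvd.dvd.mul_right (by exact_mod_cast hpR) _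
      exact (dvd_add_left h2).1 h1
    · obtain ⟨i, hi⟩ := hb
      exact ⟨i, by rw [hxi]; exact hi⟩
  · have h1 := hcong i
    rw [← hvi i, hRc] at h1
    exact (mul_dvd_mul_iff_left hc0).1 h1
  · have hcr : (1 : ℝ) ≤ c := by exact_mod_cast hc
    have hRr : (0 : ℝ) < R := by exact_mod_cast hR0
    have h1 : |((tt F c i x : ℤ) : ℝ)| ≤ (∑ p, |(F i p : ℝ)|) * (B : ℝ) ^ 2 := by
      have h2 := qf_bd (F i) x B hxB
      rw [← htt i] at h2
      push_cast at h2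
      rw [abs_mul, abs_of_pos (by linarith : (0 : ℝ) < c)] at h2
      refine le_trans ?_ h2
      have := abs_nonneg ((tt F c i x : ℤ) : ℝ)
      nlinarith
    have h3 : vi F c L i x = tt F c i x + (L i 0 * c + (∑ j : Fin r, L i j.succ * u j +
        R * ∑ j : Fin r, L i j.succ * t j)) := by
      unfold vi
      rw [Fin.sum_univ_succ]
      have e1 : cv (c : ℤ) x 0 = c := rfl
      have e2 : ∀ j : Fin r, cv (c : ℤ) x j.succ = x j := fun j => rfl
      have e3 : ∑ j : Fin r, L i j.succ * x j = ∑ j : Fin r, L i j.succ * u j +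
          R * ∑ j : Fin r, L i j.succ * t j := by
        rw [Finset.mul_sum, ← Finset.sum_add_distrib]
        refine Finset.sum_congr rfl fun j _ => ?_
        rw [hxi]
        ring
      rw [e1]
      simp only [e2]
      rw [e3]
    have h4 : |((L i 0 * c : ℤ) : ℝ)| ≤ A * c := by
      have h5 : |L i 0 * (c : ℤ)| ≤ A * c := by
        rw [abs_mul, abs_of_nonneg (by positivity : (0 : ℤ) ≤ (c : ℤ))]
        exact mul_le_mul_of_nonneg_right (hLA i 0) (by positivity)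
      exact_mod_cast h5
    have h5 := sum_bd (fun j : Fin r => L i j.succ) u A R (fun j => hLA i j.succ) huR
    have h6 : |((R * ∑ j : Fin r, L i j.succ * t j : ℤ) : ℝ)| ≤ δ * A * B / 4 := by
      rw [Int.cast_mul, abs_mul, Int.cast_natCast, abs_of_pos hRr]
      refine (mul_le_mul_of_nonneg_left (hs i) hRr.le).trans (le_of_eq ?_)
      field_simp
    have h7 : |((vi F c L i x : ℤ) : ℝ)| ≤ (∑ p, |(F i p : ℝ)|) * (B : ℝ) ^ 2 + (A * c +
        (r * A * R + δ * A * B / 4)) := by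
      rw [h3, Int.cast_add, Int.cast_add, Int.cast_add]
      refine (abs_add_le _ _).trans (add_le_add h1 ?_)
      refine (abs_add_le _ _).trans (add_le_add h4 ?_)
      exact (abs_add_le _ _).trans (add_le_add h5 h6)
    refine h7.trans ?_
    have hAr : (0 : ℝ) ≤ A := by positivity
    have hBr : (0 : ℝ) ≤ B := by positivity
    have a1 := mul_le_mul_of_nonneg_right (hA i) hBr
    have a2 := mul_le_mul_of_nonneg_left hB2 hAr
    have a3 := mul_le_mul_of_nonneg_left hB3 hAr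
    nlinarith

open Classical in
theorem few {r K R B : ℕ} (hK : 1 ≤ K) (hR : 1 ≤ R) (hB : 3 * (K * R) ≤ B) (N : ℕ)
    {u : Fin r → ℤ} (hu : ∀ i, |u i| ≤ (R : ℤ)) :
    (((vb r N).filter fun t => ¬ ∃ i, (B : ℤ) ≤ K * |u i + (R : ℤ) * t i|).card : ℝ) ≤
      (3 * (B : ℝ) / (K * R)) ^ r := by
  have hKR : 0 < K * R := Nat.mul_pos hK hR
  have h1 : ((vb r N).filter fun t => ¬ ∃ i, (B : ℤ) ≤ K * |u i + (R : ℤ) * t i|).card ≤
      (2 * (B / (K * R) + 1) + 1) ^ r := by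
    rw [← card_vb]
    refine Finset.card_le_card fun t ht => ?_
    rw [Finset.mem_filter] at ht
    rw [mem_vb]
    intro i
    have h2 := ht.2
    push Not at h2
    have h3 := h2 i
    have h4 : (R : ℤ) * |t i| ≤ |u i + (R : ℤ) * t i| + |u i| := by
      have h5 : |(R : ℤ) * t i| ≤ |u i + (R : ℤ) * t i| + |u i| := by
        have h6 : (R : ℤ) * t i = (u i + (R : ℤ) * t i) - u i := by ring
        calc |(R : ℤ) * t i| = |(u i + (R : ℤ) * t i) - u i| := by rw [← h6]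
          _ ≤ _ := abs_sub _ _
      rwa [abs_mul, abs_of_nonneg (by positivity : (0 : ℤ) ≤ (R : ℤ))] at h5
    have hKz : (0 : ℤ) ≤ (K : ℤ) := by positivity
    have h7 : ((K : ℤ) * R) * |t i| < B + K * R := by
      have h8 := mul_le_mul_of_nonneg_left h4 hKz
      have h9 := mul_le_mul_of_nonneg_left (hu i) hKz
      nlinarith
    obtain ⟨n, hn⟩ : ∃ n : ℕ, |t i| = n := ⟨(t i).natAbs, Int.abs_eq_natAbs _⟩
    rw [hn] at h7 ⊢
    have h10 : (K * R) * n < B + K * R := by exact_mod_cast h7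
    have h11 : n ≤ B / (K * R) + 1 := by
      have h12 : n - 1 ≤ B / (K * R) := by
        rw [Nat.le_div_iff_mul_le hKR]
        rcases Nat.eq_zero_or_pos n with h0 | h0
        · subst h0
          simp
        · obtain ⟨m, rfl⟩ : ∃ m, n = m + 1 := ⟨n - 1, by omega⟩
          rw [Nat.add_sub_cancel]
          rw [mul_add, mul_one] at h10
          have : K * R * m < B := by omega
          rw [mul_comm]
          exact this.le
      omega
    exact_mod_cast h11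
  have hKRr : (0 : ℝ) < K * R := by exact_mod_cast hKR
  have h2 : (((vb r N).filter fun t => ¬ ∃ i, (B : ℤ) ≤ K * |u i + (R : ℤ) * t i|).card : ℝ) ≤
      (2 * (((B / (K * R) : ℕ) : ℝ) + 1) + 1) ^ r := by exact_mod_cast h1
  refine h2.trans (pow_le_pow_left₀ (by positivity) ?_ r)
  have h3 : ((B / (K * R) : ℕ) : ℝ) ≤ (B : ℝ) / (K * R) := by
    have := @Nat.cast_div_le ℝ _ _ _ B (K * R)
    push_cast at this
    exact this
  have h4 : 3 ≤ (B : ℝ) / (K * R) := by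
    rw [le_div_iff₀ hKRr]
    exact_mod_cast hB
  have h5 : 3 * (B : ℝ) / (K * R) = 3 * ((B : ℝ) / (K * R)) := by ring
  rw [h5]
  linarith

open Classical in
theorem one (hPGH : T_PGH) (hGGE : T_GGE) {r : ℕ} (F : Fin 2 → Mon r → ℤ) {c : ℕ} (hr : 1 ≤ r)
    (hc : 1 ≤ c) {δ : ℝ} (hδ : 0 < δ) (hδ1 : δ ≤ 1) {K W N R : ℕ} (hK1 : 1 ≤ K) (hW : 1 ≤ W)
    (hR : R = c * W) (hK : 2 * (12 * (r : ℝ) / δ) ^ 2 * 6 ^ r ≤ (K : ℝ) ^ r) {B A : ℕ}
    {L : Fin 2 → Fin (r + 1) → ℤ} (hL : L ∈ bL r A) (hN : R * (N + 1) ≤ B)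
    (hN2 : (B : ℝ) / (2 * R) ≤ N + 1)
    (hB1 : 3 * (K * R) ≤ B) (hA1 : 1 ≤ A)
    (hB2 : 4 * (c : ℝ) ≤ δ * B) (hB3 : 4 * (r : ℝ) * R ≤ δ * B)
    (hA : ∀ i, 4 * (∑ p, |(F i p : ℝ)|) * B ≤ δ * A)
    {u : Fin r → ℤ} (hu : u ∈ UL F c R L) :
    1 / 2 * (δ / (12 * r)) ^ 2 * ((B : ℝ) / (2 * R)) ^ r ≤
      (((vb r N).filter fun t => (fun i => u i + (R : ℤ) * t i) ∈
        (PT F c K B).filter fun x => ∀ i, (W : ℤ) ∣ vi F c L i x ∧
        |((vi F c L i x : ℤ) : ℝ)| ≤ δ * A * B).card : ℝ) := by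
  have hR0 : 1 ≤ R := by
    rw [hR]
    exact Nat.mul_pos hc hW
  have hRr : (0 : ℝ) < R := by exact_mod_cast hR0
  have hKr : (0 : ℝ) < K := by exact_mod_cast hK1
  have hrr : (1 : ℝ) ≤ r := by exact_mod_cast hr
  have hAr : (1 : ℝ) ≤ A := by exact_mod_cast hA1
  have hB0 : 1 ≤ B := by
    have : 0 < K * R := Nat.mul_pos hK1 hR0
    omega
  have hBr : (1 : ℝ) ≤ B := by exact_mod_cast hB0
  have hLA : ∀ i j, |(L i j : ℝ)| ≤ (A : ℝ) := by
    intro i j
    unfold bL at hL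
    rw [Fintype.mem_piFinset] at hL
    have h1 := hL i
    rw [Fintype.mem_piFinset] at h1
    have h2 := h1 j
    rw [Finset.mem_Icc] at h2
    have h3 : |L i j| ≤ (A : ℤ) := by
      rw [abs_le]
      exact h2
    exact_mod_cast h3
  have huR : ∀ i, |u i| ≤ (R : ℤ) := by
    intro i
    simp only [UL, Finset.mem_filter, Fintype.mem_piFinset, Finset.mem_Ico] at hu
    rw [abs_of_nonneg (hu.1 i).1]
    exact (hu.1 i).2.le
  have hNB : (N : ℝ) ≤ B / R := by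
    rw [le_div_iff₀ hRr]
    have h1 : (R : ℝ) * (N + 1) ≤ B := by exact_mod_cast hN
    nlinarith
  have hY0 : 0 < δ * A * B / (4 * R) := by positivity
  have hYH : δ * A * B / (4 * R) ≤ r * A * (B / R) := by
    rw [div_le_iff₀ (by positivity)]
    have e : (r : ℝ) * A * (B / R) * (4 * R) = 4 * r * (A * B) := by field_simp
    rw [e]
    have : δ ≤ 4 * r := by linarith
    calc δ * A * B = δ * (A * B) := by ring
      _ ≤ 4 * r * (A * B) := mul_le_mul_of_nonneg_right this (by positivity)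
  have h1 := hPGH r N (fun i j => L i j.succ) (r * A * (B / R)) (δ * A * B / (4 * R)) hY0 hYH ?_
  swap
  · intro i
    have h2 : ∑ j : Fin r, |((L i j.succ : ℤ) : ℝ)| ≤ r * A := by
      refine (Finset.sum_le_sum fun j _ => hLA i j.succ).trans (le_of_eq ?_)
      simp
    exact mul_le_mul h2 hNB (by positivity) (by positivity)
  have h2 := few hK1 hR0 hB1 N huR
  have e1 : δ * A * B / (4 * R) / (3 * (r * A * (B / R))) = δ / (12 * r) := by
    field_simp
    norm_num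
  rw [e1] at h1
  have h3 : (δ / (12 * r)) ^ 2 * ((B : ℝ) / (2 * R)) ^ r ≤
      (δ / (12 * r)) ^ 2 * ((N : ℝ) + 1) ^ r := by
    gcongr
  have h4 : (3 * (B : ℝ) / (K * R)) ^ r ≤ 1 / 2 * (δ / (12 * r)) ^ 2 * ((B : ℝ) / (2 * R)) ^ r := by
    have e2 : 3 * (B : ℝ) / (K * R) = 6 / K * (B / (2 * R)) := by
      field_simp
      norm_num
    rw [e2, mul_pow]
    refine mul_le_mul_of_nonneg_right ?_ (by positivity)
    rw [div_pow, div_le_iff₀ (by positivity)]
    have h5 : 1 / 2 * (δ / (12 * r)) ^ 2 * (2 * (12 * (r : ℝ) / δ) ^ 2 * 6 ^ r) = 6 ^ r := by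
      field_simp
    calc (6 : ℝ) ^ r = 1 / 2 * (δ / (12 * r)) ^ 2 * (2 * (12 * (r : ℝ) / δ) ^ 2 * 6 ^ r) := h5.symm
      _ ≤ 1 / 2 * (δ / (12 * r)) ^ 2 * (K : ℝ) ^ r := mul_le_mul_of_nonneg_left hK (by positivity)
  have h6 : ((vb r N).filter fun t => ∀ i, |((∑ j : Fin r, L i j.succ * t j : ℤ) : ℝ)| ≤
        δ * A * B / (4 * R)).card ≤
      ((vb r N).filter fun t => (fun i => u i + (R : ℤ) * t i) ∈
        (PT F c K B).filter fun x => ∀ i, (W : ℤ) ∣ vi F c L i x ∧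
        |((vi F c L i x : ℤ) : ℝ)| ≤ δ * A * B).card +
      ((vb r N).filter fun t => ¬ ∃ i, (B : ℤ) ≤ K * |u i + (R : ℤ) * t i|).card := by
    refine le_trans (Finset.card_le_card ?_) (Finset.card_union_le _ _)
    intro t ht
    rw [Finset.mem_filter] at ht
    rw [Finset.mem_union]
    by_cases hb : ∃ i, (B : ℤ) ≤ K * |u i + (R : ℤ) * t i|
    · refine Or.inl (Finset.mem_filter.2 ⟨ht.1, ?_⟩)
      exact key hGGE F hc hW hR hL hN hB2 hB3 hA hu ht.1 ht.2 hb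
    · exact Or.inr (Finset.mem_filter.2 ⟨ht.1, hb⟩)
  have h7 : (((vb r N).filter fun t => ∀ i, |((∑ j : Fin r, L i j.succ * t j : ℤ) : ℝ)| ≤
        δ * A * B / (4 * R)).card : ℝ) ≤
      (((vb r N).filter fun t => (fun i => u i + (R : ℤ) * t i) ∈
        (PT F c K B).filter fun x => ∀ i, (W : ℤ) ∣ vi F c L i x ∧
        |((vi F c L i x : ℤ) : ℝ)| ≤ δ * A * B).card : ℝ) +
      (((vb r N).filter fun t => ¬ ∃ i, (B : ℤ) ≤ K * |u i + (R : ℤ) * t i|).card : ℝ) := by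
    exact_mod_cast h6
  linarith

theorem pf_LOL (hPGH : T_PGH) (hGGE : T_GGE) : T_LOL := by
  classical
  intro r F c η hr hc hη
  have hrr : (1 : ℝ) ≤ r := by exact_mod_cast hr
  refine ⟨η / (288 * (r : ℝ) ^ 2 * 2 ^ r), by positivity, ?_⟩
  intro δ hδ hδ1
  obtain ⟨K', hK'⟩ := exists_nat_ge (2 * (12 * (r : ℝ) / δ) ^ 2)
  have hK'1 : (1 : ℝ) ≤ K' := by
    refine le_trans ?_ hK'
    have h1 : 1 ≤ 12 * (r : ℝ) / δ := by
      rw [le_div_iff₀ hδ]
      linarith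
    nlinarith
  have hK'n : 1 ≤ K' := by exact_mod_cast hK'1
  refine ⟨6 * K', ?_⟩
  intro W hW
  have hK : 2 * (12 * (r : ℝ) / δ) ^ 2 * 6 ^ r ≤ ((6 * K' : ℕ) : ℝ) ^ r := by
    push_cast
    rw [mul_pow, mul_comm]
    refine mul_le_mul_of_nonneg_left ?_ (by positivity)
    exact hK'.trans (le_self_pow₀ hK'1 (by omega))
  obtain ⟨R, hR⟩ : ∃ R : ℕ, R = c * W := ⟨_, rfl⟩
  have hR0 : 1 ≤ R := by
    rw [hR]
    exact Nat.mul_pos hc hW
  have hRr : (0 : ℝ) < R := by exact_mod_cast hR0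
  obtain ⟨C, hC⟩ : ∃ C : ℝ, C = ∑ i, ∑ p, |(F i p : ℝ)| := ⟨_, rfl⟩
  have hC0 : 0 ≤ C := by
    rw [hC]
    exact Finset.sum_nonneg fun i _ => Finset.sum_nonneg fun p _ => abs_nonneg _
  have hCi : ∀ i, ∑ p, |(F i p : ℝ)| ≤ C := by
    intro i
    rw [hC]
    exact Finset.single_le_sum (f := fun i => ∑ p, |(F i p : ℝ)|)
      (fun i _ => Finset.sum_nonneg fun p _ => abs_nonneg _) (Finset.mem_univ i)
  obtain ⟨M, hM⟩ := exists_nat_ge ((4 * C + 4 * c + 4 * r * R) / δ)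
  rw [div_le_iff₀ hδ] at hM
  refine ⟨M + 3 * (6 * K' * R), ?_⟩
  intro B A L hB hBA hL hU
  rw [← hR] at hU
  have hBM : M ≤ B := by omega
  have hBK : 3 * (6 * K' * R) ≤ B := by omega
  have hKR : 0 < 6 * K' * R := Nat.mul_pos (by omega) hR0
  have hB1 : 1 ≤ B := by omega
  have hRB : R ≤ B := by
    have : R ≤ 6 * K' * R := Nat.le_mul_of_pos_left _ (by omega)
    omega
  have hA1 : 1 ≤ A := by
    refine le_trans ?_ hBA
    exact Nat.mul_pos (by omega) hB1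
  have hMA : (M : ℝ) * B ≤ A := by
    have h1 : M * B ≤ A := le_trans (Nat.mul_le_mul_right _ (by omega)) hBA
    exact_mod_cast h1
  have hMB : (M : ℝ) ≤ B := by exact_mod_cast hBM
  have hMd : (M : ℝ) * δ ≤ δ * B := by nlinarith
  have hB2 : 4 * (c : ℝ) ≤ δ * B := by
    refine le_trans ?_ hMd
    refine le_trans ?_ hM
    have : 0 ≤ 4 * (r : ℝ) * R := by positivity
    linarith
  have hB3 : 4 * (r : ℝ) * R ≤ δ * B := by
    refine le_trans ?_ hMd
    refine le_trans ?_ hM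
    have : (0 : ℝ) ≤ c := by positivity
    linarith
  have hA : ∀ i, 4 * (∑ p, |(F i p : ℝ)|) * B ≤ δ * A := by
    intro i
    have hBr : (0 : ℝ) ≤ B := by positivity
    have h1 : 4 * (∑ p, |(F i p : ℝ)|) ≤ M * δ := by
      refine le_trans ?_ hM
      have h2 : (0 : ℝ) ≤ c := by positivity
      have h3 : 0 ≤ 4 * (r : ℝ) * R := by positivity
      linarith [hCi i]
    calc 4 * (∑ p, |(F i p : ℝ)|) * B ≤ M * δ * B := mul_le_mul_of_nonneg_right h1 hBr
      _ = δ * (M * B) := by ring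
      _ ≤ δ * A := mul_le_mul_of_nonneg_left hMA hδ.le
  -- the length
  have hq1 : 1 ≤ B / R := (Nat.one_le_div_iff (by omega)).2 hRB
  obtain ⟨N, hN⟩ : ∃ N : ℕ, B / R = N + 1 := ⟨B / R - 1, by omega⟩
  have hN1 : R * (N + 1) ≤ B := by
    rw [← hN]
    exact Nat.mul_div_le _ _
  have hN2 : (B : ℝ) / (2 * R) ≤ N + 1 := by
    rw [div_le_iff₀ (by positivity)]
    have h1 : B < R * (N + 1 + 1) := by
      rw [← hN]
      exact Nat.lt_mul_div_succ _ (by omega)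
    have h2 : (B : ℝ) < R * (N + 1 + 1) := by exact_mod_cast h1
    have h3 : (0 : ℝ) ≤ N := by positivity
    nlinarith
  -- the sum over the classes
  obtain ⟨G, hG⟩ : ∃ G : Finset (Fin r → ℤ), G = (PT F c (6 * K') B).filter fun x =>
      ∀ i, (W : ℤ) ∣ vi F c L i x ∧ |((vi F c L i x : ℤ) : ℝ)| ≤ δ * A * B := ⟨_, rfl⟩
  obtain ⟨T, hT⟩ : ∃ T : (Fin r → ℤ) → Finset (Fin r → ℤ), T = fun u =>
      (vb r N).filter fun t => (fun i => u i + (R : ℤ) * t i) ∈ G := ⟨_, rfl⟩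
  have hTc : ∀ u ∈ UL F c R L, 1 / 2 * (δ / (12 * r)) ^ 2 * ((B : ℝ) / (2 * R)) ^ r ≤
      ((T u).card : ℝ) := by
    intro u hu
    have := one hPGH hGGE F hr hc hδ hδ1 (K := 6 * K') (N := N) (by omega) hW hR hK hL hN1 hN2
      hBK hA1 hB2 hB3 hA hu
    rw [hT, hG]
    exact this
  have hcard : ((UL F c R L).sigma T).card ≤ G.card := by
    refine Finset.card_le_card_of_injOn (fun q => fun i => q.1 i + (R : ℤ) * q.2 i) ?_ ?_
    · intro q hq
      rw [Finset.mem_coe, Finset.mem_sigma] at hq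
      have h1 := hq.2
      rw [hT] at h1
      simp only [Finset.mem_filter] at h1
      exact h1.2
    · intro q hq q' hq' heq
      rw [Finset.mem_coe, Finset.mem_sigma] at hq hq'
      have h1 := hq.1
      have h2 := hq'.1
      simp only [UL, Finset.mem_filter, Fintype.mem_piFinset, Finset.mem_Ico] at h1 h2
      have hRz : (0 : ℤ) < R := by exact_mod_cast hR0
      have h3 : ∀ i, q.1 i = q'.1 i ∧ q.2 i = q'.2 i := by
        intro i
        have h4 : q.1 i + (R : ℤ) * q.2 i = q'.1 i + (R : ℤ) * q'.2 i := congrFun heq i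
        have h5 : q.1 i % R = q.1 i := Int.emod_eq_of_lt (h1.1 i).1 (h1.1 i).2
        have h6 : q'.1 i % R = q'.1 i := Int.emod_eq_of_lt (h2.1 i).1 (h2.1 i).2
        have h7 : q.1 i = q'.1 i := by
          rw [← h5, ← h6]
          have h8 := congrArg (fun z : ℤ => z % (R : ℤ)) h4
          simpa using h8
        refine ⟨h7, ?_⟩
        rw [h7] at h4
        exact mul_left_cancel₀ hRz.ne' (add_left_cancel h4)
      exact Sigma.ext (funext fun i => (h3 i).1) (heq_of_eq (funext fun i => (h3 i).2))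
  have hsum : ((UL F c R L).card : ℝ) * (1 / 2 * (δ / (12 * r)) ^ 2 * ((B : ℝ) / (2 * R)) ^ r) ≤
      (((UL F c R L).sigma T).card : ℝ) := by
    rw [Finset.card_sigma]
    push_cast
    rw [← nsmul_eq_mul]
    exact Finset.card_nsmul_le_sum _ _ _ hTc
  have hcr : (((UL F c R L).sigma T).card : ℝ) ≤ (G.card : ℝ) := by exact_mod_cast hcard
  rw [← hG]
  refine le_trans ?_ (hsum.trans hcr)
  have hW0 : (0 : ℝ) < W := by exact_mod_cast hW
  calc η / (288 * (r : ℝ) ^ 2 * 2 ^ r) * δ ^ 2 * (B : ℝ) ^ r / (W : ℝ) ^ 2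
      = η * (R : ℝ) ^ r / (W : ℝ) ^ 2 *
        (1 / 2 * (δ / (12 * r)) ^ 2 * ((B : ℝ) / (2 * R)) ^ r) := by
        rw [div_pow (B : ℝ), mul_pow (2 : ℝ) (R : ℝ), div_pow δ, mul_pow]
        field_simp
        norm_num
    _ ≤ _ := mul_le_mul_of_nonneg_right hU (by positivity)

end Pool.Agent.H4.HFS
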